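import Pool.Agent.H52.XH.Targets

/-!
# MP_e37c09_lc, module CM: the comparison of two embeddings in HOD
-/

open Ordinal Cardinal Order Set
open scoped ZFSet

universe u

namespace Pool.Agent.H47.XH

open _root_.HD Pool.Agent.H54.WM Pool.Agent.H52.XH

theorem hext_mem {γ γ' β β' : Ordinal.{u}} {j x y : ZFSet.{u}} (h : HExt γ γ' β β' j)
    (hxy : ZFSet.pair x y ∈ j) : x ∈ HV β ∧ y ∈ HV β' := ZFSet.pair_mem_prod.1 (h.func.1 hxy)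

theorem hext_fn {γ γ' β β' : Ordinal.{u}} {j x y z : ZFSet.{u}} (h : HExt γ γ' β β' j)
    (h1 : ZFSet.pair x y ∈ j) (h2 : ZFSet.pair x z ∈ j) : y = z := by
  obtain ⟨w, -, hw⟩ := h.func.2 x (hext_mem h h1).1
  exact (hw y h1).trans (hw z h2).symm

theorem hext_inj {γ γ' β β' : Ordinal.{u}} {j x y z : ZFSet.{u}} (h : HExt γ γ' β β' j)
    (h1 : ZFSet.pair x z ∈ j) (h2 : ZFSet.pair y z ∈ j) : x = y := by
  have h3 := h.elem (.eq 0 1) (cons x fun _ => y) (fun _ => z) (by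
    rintro (_ | n)
    · exact h1
    · exact h2)
  have h4 : x = y ↔ z = z := h3
  exact h4.2 rfl

/-- the comparison embedding -/
noncomputable def ck (b b' : Ordinal.{u}) (j j' : ZFSet.{u}) : ZFSet.{u} :=
  ZFSet.sep (fun p => ∃ x y z, p = ZFSet.pair x y ∧ ZFSet.pair x z ∈ j ∧ ZFSet.pair y z ∈ j')
    (ZFSet.prod (HV b) (HV b'))

theorem mem_ck {γ γ' κ b b' β : Ordinal.{u}} {j j' p : ZFSet.{u}} (h : HExt γ κ b β j)
    (h' : HExt γ' κ b' β j') : p ∈ ck b b' j j' ↔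
      ∃ x y z, p = ZFSet.pair x y ∧ ZFSet.pair x z ∈ j ∧ ZFSet.pair y z ∈ j' := by
  unfold ck
  rw [ZFSet.mem_sep]
  constructor
  · exact fun h => h.2
  · rintro ⟨x, y, z, rfl, h1, h2⟩
    exact ⟨ZFSet.pair_mem_prod.2 ⟨(hext_mem h h1).1, (hext_mem h' h2).1⟩, x, y, z, rfl, h1, h2⟩

theorem pair_mem_ck {γ γ' κ b b' β : Ordinal.{u}} {j j' x y : ZFSet.{u}} (h : HExt γ κ b β j)
    (h' : HExt γ' κ b' β j') : ZFSet.pair x y ∈ ck b b' j j' ↔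
      ∃ z, ZFSet.pair x z ∈ j ∧ ZFSet.pair y z ∈ j' := by
  rw [mem_ck h h']
  constructor
  · rintro ⟨x', y', z, e, h1, h2⟩
    obtain ⟨rfl, rfl⟩ := ZFSet.pair_inj.1 e
    exact ⟨z, h1, h2⟩
  · rintro ⟨z, h1, h2⟩
    exact ⟨x, y, z, rfl, h1, h2⟩

theorem od_ck {γ γ' κ b b' β : Ordinal.{u}} {j j' : ZFSet.{u}} (h : HExt γ κ b β j)
    (h' : HExt γ' κ b' β j') : OD (ck b b' j j') := by
  refine OD.of_mem (P := fun v => ∃ x y z, v 0 = ZFSet.pair x y ∧ ZFSet.pair x z ∈ j ∧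
    ZFSet.pair y z ∈ j') ?_ fun v => (mem_ck h h').symm
  refine DZ.od (R := fun a v => ∃ x y z, v 0 = ZFSet.pair x y ∧ ZFSet.pair x z ∈ a ∧
    ZFSet.pair y z ∈ j') h.hod.od ?_
  refine DZ.od (R := fun a v => ∃ x y z, v 1 = ZFSet.pair x y ∧ ZFSet.pair x z ∈ v 0 ∧
    ZFSet.pair y z ∈ a) h'.hod.od ?_
  refine DZ.ex (R := fun x v => ∃ y z, v 2 = ZFSet.pair x y ∧ ZFSet.pair x z ∈ v 1 ∧
    ZFSet.pair y z ∈ v 0) ?_
  refine DZ.ex (R := fun y v => ∃ z, v 3 = ZFSet.pair (v 0) y ∧ ZFSet.pair (v 0) z ∈ v 2 ∧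
    ZFSet.pair y z ∈ v 1) ?_
  refine DZ.ex (R := fun z v => v 4 = ZFSet.pair (v 1) (v 0) ∧ ZFSet.pair (v 1) z ∈ v 3 ∧
    ZFSet.pair (v 0) z ∈ v 2) ?_
  exact (loc_pair 5 2 1).dz.and ((loc_pmem 2 0 4).dz.and (loc_pmem 1 0 3).dz)

theorem HV_mono {g g' : Ordinal.{u}} (h : g ≤ g') {x : ZFSet.{u}} (hx : x ∈ HV g) :
    x ∈ HV g' := by
  rw [mem_HV, ZFSet.mem_vonNeumann] at hx ⊢
  exact ⟨hx.1.trans_le h, hx.2⟩

theorem pf_CM : T_CM.{u} := by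
  intro γ γ' κ b b' β j j' h h' hγ hr
  have hp := fun x y : ZFSet.{u} => pair_mem_ck (x := x) (y := y) h h'
  refine ⟨ck b b' j j', ⟨?_, ⟨?_, ?_⟩, ?_, ?_, ?_⟩, ?_⟩
  · refine hod_iff.2 ⟨od_ck h h', fun p hpm => ?_⟩
    obtain ⟨x, y, z, rfl, h1, h2⟩ := (mem_ck h h').1 hpm
    exact (mem_HV.1 (hext_mem h h1).1).2.pair (mem_HV.1 (hext_mem h' h2).1).2
  · exact fun p hpm => (ZFSet.mem_sep.1 hpm).1
  · intro x hx
    obtain ⟨z, hz, -⟩ := h.func.2 x hx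
    obtain ⟨y, hy⟩ := hr z ⟨x, hz⟩
    refine ⟨y, (hp x y).2 ⟨z, hz, hy⟩, fun y' hy' => ?_⟩
    obtain ⟨z', h1, h2⟩ := (hp x y').1 hy'
    have e : z' = z := hext_fn h h1 hz
    subst e
    exact hext_inj h' h2 hy
  · intro φ v w hvw
    choose z hz1 hz2 using fun n => (hp (v n) (w n)).1 (hvw n)
    rw [h.elem φ v z hz1, h'.elem φ w z hz2]
  · intro x hx
    exact (hp x x).2 ⟨x, h.fix x hx, h'.fix x (HV_mono hγ hx)⟩
  · exact (hp _ _).2 ⟨_, h.crit, h'.crit⟩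
  · intro x y z hxy hyz
    obtain ⟨z', h1, h2⟩ := (hp x y).1 hxy
    have e : z' = z := hext_fn h' h2 hyz
    subst e
    exact h1

end Pool.Agent.H47.XH
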