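import Pool.Agent.H52.XH.Targets
import Pool.Agent.H7.HD.All
import Pool.Agent.H7.HD.LocR

/-!
# MP_e37c09_lc, module JG: the restriction of an embedding of `V` to `(V_ b)^HOD`
-/

open Ordinal Cardinal Order Set
open scoped ZFSet

universe u

namespace Pool.Agent.H47.XH

open _root_.HD Pool.Agent.H54.WM Pool.Agent.H52.XH

/-- The statement which is moved by the embedding. -/
def JGP (v : ℕ → ZFSet.{u}) : Prop := (∀ x ∈ v 0, (v 1).IsOrdinal ∧ ODb (v 1).rank x) ∧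
  ((∀ x ∈ v 0, ∀ y ∈ x, y ∈ v 0) ∧ ZFSet.IsFunc (v 2) (v 0) (v 3))

theorem loc_JGP : Loc.{u} JGP := by
  unfold JGP
  refine Loc.and ?_ (Loc.and ?_ ?_)
  · refine Loc.allMem (R := fun x v => (v 1).IsOrdinal ∧ ODb (v 1).rank x) 0 ?_
    exact (t_RL.{u}.ren fun n => if n = 0 then 0 else 2)
  · refine Loc.allMem (R := fun x v => ∀ y ∈ x, y ∈ v 0) 0 ?_
    refine Loc.allMem (R := fun y v => y ∈ v 1) 0 ?_
    exact Loc.mem 0 2
  · exact loc_func 2 0 3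

theorem od_of_b {β : Ordinal.{u}} {x : ZFSet.{u}} (h : ODb β x) : OD x := by
  obtain ⟨N, -, h1, h2⟩ := h
  exact od_iff_nm.2 ⟨N, h1, h2⟩

theorem hod_of_tra {W : ZFSet.{u}} (h1 : ∀ x ∈ W, OD x) (h2 : ∀ x ∈ W, ∀ y ∈ x, y ∈ W) :
    ∀ x ∈ W, HOD x := by
  intro x
  induction x using ZFSet.inductionOn with
  | _ x ih => exact fun hx => hod_iff.2 ⟨h1 x hx, fun y hy => ih y hy (h2 x hx y hy)⟩

/-- a bound for the levels of the names of the elements of a set -/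
theorem exists_odb {W : ZFSet.{u}} (h : ∀ x ∈ W, OD x) : ∃ b0, ∀ x ∈ W, ODb b0 x := by
  have hN : ∀ x : W, ∃ N : Nm.{u}, N.ok ∧ N.den x.1 := fun x => od_iff_nm.1 (h x.1 x.2)
  choose N hN1 hN2 using hN
  exact ⟨succ (⨆ x : W, (N x).a), fun x hx =>
    ⟨N ⟨x, hx⟩, lt_succ_of_le (Ordinal.le_iSup (fun x : W => (N x).a) ⟨x, hx⟩), hN1 _, hN2 _⟩⟩

theorem HV_tra {b : Ordinal.{u}} : ∀ x ∈ HV b, ∀ y ∈ x, y ∈ HV b := by
  intro x hx y hy
  rw [mem_HV, ZFSet.mem_vonNeumann] at hx ⊢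
  exact ⟨(ZFSet.rank_lt_of_mem hy).trans hx.1, (hod_iff.1 hx.2).2 y hy⟩

theorem HV_sub {b : Ordinal.{u}} : HV b ⊆ V_ b := fun _ hx => (mem_HV.1 hx).1

theorem pf_JG : T_JG.{u} := by
  intro δ lam b Q hQ
  obtain ⟨β₁, hβ₁⟩ := HD.All.xc Q hQ.hod.od
  obtain ⟨b0, hb0⟩ := exists_odb (W := HV b) fun x hx => (mem_HV.1 hx).2.od
  refine ⟨max (max β₁ b0) (max lam b), fun η hη θ j hE hDR => ?_⟩
  have hη1 : β₁ < η := ((le_max_left _ _).trans (le_max_left _ _)).trans_lt hη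
  have hη2 : b0 < η := ((le_max_right _ _).trans (le_max_left _ _)).trans_lt hη
  have hη3 : lam < η := ((le_max_left _ _).trans (le_max_right _ _)).trans_lt hη
  have hη4 : b < η := ((le_max_right _ _).trans (le_max_right _ _)).trans_lt hη
  obtain ⟨hQη, hjQ⟩ := hβ₁ δ η θ j hE hη1
  have hWη : HV b ∈ V_ η := by
    refine mem_V_of_sub HV_sub ?_
    rw [ZFSet.mem_vonNeumann, ZFSet.rank_vonNeumann]
    exact hη4
  have hmem : ∀ z ∈ [HV b, b0.toZFSet, lam.toZFSet, Q], z ∈ V_ η := by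
    simp only [List.mem_cons, List.not_mem_nil, or_false, forall_eq_or_imp, forall_eq]
    exact ⟨hWη, Gd.ord.2 hη2, Gd.ord.2 hη3, hQη⟩
  have t1 := hE.trl loc_JGP [HV b, b0.toZFSet, lam.toZFSet, Q] hmem
  have t2 : JGP (sv [HV b, b0.toZFSet, lam.toZFSet, Q]) := by
    refine ⟨fun x hx => ⟨ZFSet.isOrdinal_toZFSet _, ?_⟩, HV_tra, hQ.func⟩
    show ODb (b0.toZFSet).rank _
    rw [rank_toZFSet]
    exact hb0 x hx
  have t3 : (∀ x ∈ j (HV b), (j b0.toZFSet).IsOrdinal ∧ ODb (j b0.toZFSet).rank x) ∧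
      ((∀ x ∈ j (HV b), ∀ y ∈ x, y ∈ j (HV b)) ∧
        ZFSet.IsFunc (j lam.toZFSet) (j (HV b)) (j Q)) := t1.1 t2
  obtain ⟨h1, h2, h3⟩ := t3
  have hjW : ∀ y ∈ j (HV b), HOD y := hod_of_tra (fun y hy => od_of_b (h1 y hy).2) h2
  have hun : ∀ a x y, ZFSet.pair a x ∈ j Q → ZFSet.pair a y ∈ j Q → x = y := by
    intro a x y hx hy
    obtain ⟨w, -, hw⟩ := h3.2 a (ZFSet.pair_mem_prod.1 (h3.1 hx)).1
    exact (hw x hx).trans (hw y hy).symm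
  have hxη : ∀ x ∈ HV b, x ∈ V_ η := fun x hx =>
    ZFSet.vonNeumann_subset_of_le hη4.le (HV_sub hx)
  -- pairs in `Q`
  have hpair : ∀ a < lam, ∀ x ∈ HV b, ZFSet.pair a.toZFSet x ∈ Q →
      ZFSet.pair (Jo j a).toZFSet (j x) ∈ j Q := by
    intro a ha x hx hax
    have haη : a < η := ha.trans hη3
    have h4 := (hE.mem (hE.gd.pair (Gd.ord.2 haη) (hxη x hx)) hQη).1 hax
    rwa [hE.pair (Gd.ord.2 haη) (hxη x hx), hE.ord haη] at h4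
  refine hod_iff.2 ⟨?_, fun p hp => ?_⟩
  · obtain ⟨Q', hQ', hR⟩ := hDR
    have e : ∀ a b : Ordinal.{u}, (cons a.toZFSet fun _ => b.toZFSet) = ov (cns a fun _ => b) := by
      intro a b
      rw [ov_cns]
      rfl
    refine OD.of_mem (P := fun v => ∃ a a' x y, (a.IsOrdinal ∧ a'.IsOrdinal ∧
      Q' (cons a fun _ => a')) ∧ ZFSet.pair a x ∈ Q ∧ ZFSet.pair a' y ∈ j Q ∧
      v 0 = ZFSet.pair x y) ?_ fun v => ?_
    · refine DZ.od (R := fun q v => ∃ a a' x y, (a.IsOrdinal ∧ a'.IsOrdinal ∧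
        Q' (cons a fun _ => a')) ∧ ZFSet.pair a x ∈ q ∧ ZFSet.pair a' y ∈ j Q ∧
        v 0 = ZFSet.pair x y) hQ.hod.od ?_
      refine DZ.od (R := fun q v => ∃ a a' x y, (a.IsOrdinal ∧ a'.IsOrdinal ∧
        Q' (cons a fun _ => a')) ∧ ZFSet.pair a x ∈ v 0 ∧ ZFSet.pair a' y ∈ q ∧
        v 1 = ZFSet.pair x y) hjQ ?_
      refine DZ.ex (R := fun a v => ∃ a' x y, (a.IsOrdinal ∧ a'.IsOrdinal ∧
        Q' (cons a fun _ => a')) ∧ ZFSet.pair a x ∈ v 1 ∧ ZFSet.pair a' y ∈ v 0 ∧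
        v 2 = ZFSet.pair x y) ?_
      refine DZ.ex (R := fun a' v => ∃ x y, ((v 0).IsOrdinal ∧ a'.IsOrdinal ∧
        Q' (cons (v 0) fun _ => a')) ∧ ZFSet.pair (v 0) x ∈ v 2 ∧ ZFSet.pair a' y ∈ v 1 ∧
        v 3 = ZFSet.pair x y) ?_
      refine DZ.ex (R := fun x v => ∃ y, ((v 1).IsOrdinal ∧ (v 0).IsOrdinal ∧
        Q' (cons (v 1) fun _ => v 0)) ∧ ZFSet.pair (v 1) x ∈ v 3 ∧ ZFSet.pair (v 0) y ∈ v 2 ∧
        v 4 = ZFSet.pair x y) ?_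
      refine DZ.ex (R := fun y v => ((v 2).IsOrdinal ∧ (v 1).IsOrdinal ∧
        Q' (cons (v 2) fun _ => v 1)) ∧ ZFSet.pair (v 2) (v 0) ∈ v 4 ∧ ZFSet.pair (v 1) y ∈ v 3 ∧
        v 5 = ZFSet.pair (v 0) y) ?_
      refine DZ.and (DZ.and (DZ.ord 3) (DZ.and (DZ.ord 2) ?_))
        (DZ.and (loc_pmem 3 1 5).dz (DZ.and (loc_pmem 2 0 4).dz (loc_pair 6 1 0).dz))
      refine (hQ'.ren (fun n => if n = 0 then 3 else 2)).congr fun v => ?_
      have : (cons (v 3) fun _ => v 2) = fun n => v (if n = 0 then 3 else 2) := by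
        funext n
        rcases n with _ | n <;> simp
      rw [← this]
    · rw [mem_gj]
      constructor
      · rintro ⟨a, a', x, y, ⟨ho, ho', hq⟩, hx, hy, he⟩
        obtain ⟨α, rfl⟩ : ∃ α : Ordinal.{u}, α.toZFSet = a := ⟨_, ho.toZFSet_rank_eq⟩
        obtain ⟨α', rfl⟩ : ∃ α : Ordinal.{u}, α.toZFSet = a' := ⟨_, ho'.toZFSet_rank_eq⟩
        rw [e] at hq
        obtain ⟨hα, hα'⟩ : α < lam ∧ α' = Jo j α := (hR (cns α fun _ => α')).2 hq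
        subst hα'
        have hxW : x ∈ HV b := (ZFSet.pair_mem_prod.1 (hQ.func.1 hx)).2
        refine ⟨x, hxW, ?_⟩
        rw [he, hun _ _ _ hy (hpair α hα x hxW hx)]
      · rintro ⟨x, hx, he⟩
        obtain ⟨α, hα, hαx⟩ := hQ.onto x hx
        refine ⟨α.toZFSet, (Jo j α).toZFSet, x, j x, ⟨ZFSet.isOrdinal_toZFSet _,
          ZFSet.isOrdinal_toZFSet _, ?_⟩, hαx, hpair α hα x hx hαx, he⟩
        rw [e]
        exact (hR (cns α fun _ => Jo j α)).1 ⟨hα, rfl⟩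
  · obtain ⟨x, hx, rfl⟩ := mem_gj.1 hp
    exact (mem_HV.1 hx).2.pair (hjW _ ((hE.mem (hxη x hx) hWη).1 hx))

end Pool.Agent.H47.XH
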